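import Pool.Agent.TH702.LLG.Odd

set_option autoImplicit false

/-!
Linear arboricity of line graphs.
-/

namespace Pool.Agent.TH702.LLG

open SimpleGraph H931R3.LA

/-- If the edges of `H` are divided into classes such that every vertex is in at most `a` edges of
the class `j`, then every edge meets at most `2 a` edges of the class `j`. -/
theorem star_count {U : Type} [Finite U] (H : SimpleGraph U) (cl : H.edgeSet → ℕ) (j a : ℕ)
    (hcl : ∀ x : U, {y | ∃ h : H.Adj x y, cl ⟨s(x, y), h⟩ = j}.ncard ≤ a) (e : H.edgeSet) :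
    {e' | H.lineGraph.Adj e e' ∧ cl e' = j}.ncard ≤ 2 * a := by
  classical
  obtain ⟨⟨x, y⟩, hxy⟩ := e
  have key : ∀ z : U, {e' : H.edgeSet | z ∈ (e' : Sym2 U) ∧ cl e' = j}.ncard ≤ a := by
    intro z
    refine le_trans ?_ (hcl z)
    have hex : ∀ e' : H.edgeSet, ∃ w : U, z ∈ (e' : Sym2 U) → (e' : Sym2 U) = s(z, w) := by
      intro e'
      by_cases h : z ∈ (e' : Sym2 U)
      · obtain ⟨w, hw⟩ := h
        exact ⟨w, fun _ => hw⟩
      · exact ⟨z, fun h' => absurd h' h⟩
    choose g hg using hex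
    refine Set.ncard_le_ncard_of_injOn g ?_ ?_ (Set.toFinite _)
    · rintro ⟨e', he'⟩ ⟨h1, h2⟩
      have h3 := hg ⟨e', he'⟩ h1
      have h3' : e' = s(z, g ⟨e', he'⟩) := h3
      have h5 : H.Adj z (g ⟨e', he'⟩) := by
        have := he'
        rw [h3'] at this
        exact this
      refine ⟨h5, ?_⟩
      rw [← h2]
      congr 1
      exact Subtype.ext h3'.symm
    · rintro e1 ⟨h1, _⟩ e2 ⟨h2, _⟩ h
      apply Subtype.ext
      rw [hg e1 h1, hg e2 h2, h]
  have hsub : {e' | H.lineGraph.Adj ⟨s(x, y), hxy⟩ e' ∧ cl e' = j} ⊆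
      {e' : H.edgeSet | x ∈ (e' : Sym2 U) ∧ cl e' = j} ∪
      {e' : H.edgeSet | y ∈ (e' : Sym2 U) ∧ cl e' = j} := by
    rintro e' ⟨h1, h2⟩
    rw [lineGraph_adj_iff_exists] at h1
    obtain ⟨_, z, hz, hz'⟩ := h1
    have hz2 : z ∈ s(x, y) := hz
    rw [Sym2.mem_iff] at hz2
    rcases hz2 with rfl | rfl
    · exact Or.inl ⟨hz', h2⟩
    · exact Or.inr ⟨hz', h2⟩
  have h1 := Set.ncard_le_ncard hsub (Set.toFinite _)
  have h2 := Set.ncard_union_le {e' : H.edgeSet | x ∈ (e' : Sym2 U) ∧ cl e' = j}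
    {e' : H.edgeSet | y ∈ (e' : Sym2 U) ∧ cl e' = j}
  have h3 := key x
  have h4 := key y
  change {e' | H.lineGraph.Adj ⟨s(x, y), hxy⟩ e' ∧ cl e' = j}.ncard ≤ 2 * a
  omega

/-- The same for the class of the edge itself. -/
theorem star_count_own {U : Type} [Finite U] (H : SimpleGraph U) (cl : H.edgeSet → ℕ) (a : ℕ)
    (e : H.edgeSet)
    (hcl : ∀ x : U, {y | ∃ h : H.Adj x y, cl ⟨s(x, y), h⟩ = cl e}.ncard ≤ a + 1) :
    {e' | H.lineGraph.Adj e e' ∧ cl e' = cl e}.ncard ≤ 2 * a := by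
  classical
  obtain ⟨⟨x, y⟩, hxy⟩ := e
  set e0 : H.edgeSet := ⟨s(x, y), hxy⟩ with he0
  have hxy' : H.Adj x y := hxy
  have key : ∀ z : U, ∀ y' : U, (h0 : (e0 : Sym2 U) = s(z, y')) →
      {e' : H.edgeSet | e' ≠ e0 ∧ z ∈ (e' : Sym2 U) ∧ cl e' = cl e0}.ncard ≤ a := by
    intro z y' h0
    have hzy : H.Adj z y' := by
      have := e0.2
      rw [h0] at this
      exact this
    have hmem : y' ∈ {y | ∃ h : H.Adj z y, cl ⟨s(z, y), h⟩ = cl e0} := by
      refine ⟨hzy, ?_⟩
      congr 1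
      exact Subtype.ext h0.symm
    have h5 : ({y | ∃ h : H.Adj z y, cl ⟨s(z, y), h⟩ = cl e0} \ {y'}).ncard ≤ a := by
      rw [Set.ncard_sdiff_singleton_of_mem hmem]
      have := hcl z
      change {y | ∃ h : H.Adj z y, cl ⟨s(z, y), h⟩ = cl e0}.ncard ≤ a + 1 at this
      omega
    refine le_trans ?_ h5
    have hex : ∀ e' : H.edgeSet, ∃ w : U, z ∈ (e' : Sym2 U) → (e' : Sym2 U) = s(z, w) := by
      intro e'
      by_cases h : z ∈ (e' : Sym2 U)
      · obtain ⟨w, hw⟩ := h
        exact ⟨w, fun _ => hw⟩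
      · exact ⟨z, fun h' => absurd h' h⟩
    choose g hg using hex
    refine Set.ncard_le_ncard_of_injOn g ?_ ?_ (Set.toFinite _)
    · rintro ⟨e', he'⟩ ⟨hne, h1, h2⟩
      have h3 := hg ⟨e', he'⟩ h1
      have h3' : e' = s(z, g ⟨e', he'⟩) := h3
      have h5 : H.Adj z (g ⟨e', he'⟩) := by
        have := he'
        rw [h3'] at this
        exact this
      refine ⟨⟨h5, ?_⟩, ?_⟩
      · rw [← h2]
        congr 1
        exact Subtype.ext h3'.symm
      · intro h6
        apply hne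
        apply Subtype.ext
        change e' = (e0 : Sym2 U)
        rw [h3', h0]
        rw [Set.mem_singleton_iff] at h6
        rw [h6]
    · rintro e1 ⟨_, h1, _⟩ e2 ⟨_, h2, _⟩ h
      apply Subtype.ext
      rw [hg e1 h1, hg e2 h2, h]
  have hsub : {e' | H.lineGraph.Adj e0 e' ∧ cl e' = cl e0} ⊆
      {e' : H.edgeSet | e' ≠ e0 ∧ x ∈ (e' : Sym2 U) ∧ cl e' = cl e0} ∪
      {e' : H.edgeSet | e' ≠ e0 ∧ y ∈ (e' : Sym2 U) ∧ cl e' = cl e0} := by
    rintro e' ⟨h1, h2⟩
    have hne := h1.ne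
    rw [lineGraph_adj_iff_exists] at h1
    obtain ⟨_, z, hz, hz'⟩ := h1
    have hz2 : z ∈ s(x, y) := hz
    rw [Sym2.mem_iff] at hz2
    rcases hz2 with rfl | rfl
    · exact Or.inl ⟨hne.symm, hz', h2⟩
    · exact Or.inr ⟨hne.symm, hz', h2⟩
  have h1 := Set.ncard_le_ncard hsub (Set.toFinite _)
  have h2 := Set.ncard_union_le
    {e' : H.edgeSet | e' ≠ e0 ∧ x ∈ (e' : Sym2 U) ∧ cl e' = cl e0}
    {e' : H.edgeSet | e' ≠ e0 ∧ y ∈ (e' : Sym2 U) ∧ cl e' = cl e0}
  have h3 := key x y rfl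
  have h4 := key y x Sym2.eq_swap
  omega

/-- Classes from a decomposition. -/
theorem exists_classes {U : Type} [Finite U] (H : SimpleGraph U) (k : ℕ)
    (hdeg : ∀ v, (H.neighborSet v).ncard ≤ 2 * k) :
    ∃ cl : Sym2 U → ℕ, (∀ e ∈ H.edgeSet, cl e < k) ∧
      ∀ x j, {y | H.Adj x y ∧ cl s(x, y) = j}.ncard ≤ 2 := by
  classical
  obtain ⟨F, hF, hFH⟩ := Pool.Agent.W111.LAR.decomp H k hdeg
  have hex : ∀ e : Sym2 U, ∃ i : ℕ, e ∈ H.edgeSet → ∃ h : i < k, e ∈ (F ⟨i, h⟩).edgeSet := by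
    intro e
    by_cases he : e ∈ H.edgeSet
    · induction e using Sym2.ind with
      | _ x y =>
        rw [mem_edgeSet, ← hFH, iSup_adj] at he
        obtain ⟨i, hi⟩ := he
        exact ⟨i, fun _ => ⟨i.2, hi⟩⟩
    · exact ⟨0, fun h => absurd h he⟩
  choose cl hcl using hex
  refine ⟨cl, fun e he => (hcl e he).1, ?_⟩
  intro x j
  by_cases hj : j < k
  · refine (Set.ncard_le_ncard ?_ (Set.toFinite _)).trans (hF ⟨j, hj⟩ x)
    rintro y ⟨hy, hy'⟩
    obtain ⟨h1, h2⟩ := hcl s(x, y) hy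
    rw [mem_neighborSet, ← mem_edgeSet]
    have e1 : (⟨cl s(x, y), h1⟩ : Fin k) = ⟨j, hj⟩ := Fin.ext hy'
    rw [e1] at h2
    exact h2
  · have : {y | H.Adj x y ∧ cl s(x, y) = j} = ∅ := by
      ext y
      simp only [Set.mem_ofPred_eq, Set.mem_empty_iff_false, iff_false]
      rintro ⟨hy, hy'⟩
      obtain ⟨h1, _⟩ := hcl s(x, y) hy
      omega
    rw [this, Set.ncard_empty]
    omega

/-- Even maximum degree. -/
theorem line_even {U : Type} [Finite U] (H : SimpleGraph U) (k : ℕ)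
    (hdeg : ∀ v, (H.neighborSet v).ncard ≤ 2 * k) : Cov H.lineGraph (2 * k) := by
  classical
  obtain ⟨cl, h1, h2⟩ := exists_classes H k hdeg
  refine cov_even H.lineGraph k (fun e => cl e) (fun e => h1 e e.2) ?_ ?_
  · intro e j _
    refine star_count H (fun e => cl e) j 2 ?_ e
    intro x
    refine (Set.ncard_le_ncard ?_ (Set.toFinite _)).trans (h2 x j)
    rintro y ⟨hy, hy'⟩
    exact ⟨hy, hy'⟩
  · intro e
    refine star_count_own H (fun e => cl e) 1 e ?_
    intro x
    refine (Set.ncard_le_ncard ?_ (Set.toFinite _)).trans (h2 x (cl e))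
    rintro y ⟨hy, hy'⟩
    exact ⟨hy, hy'⟩

/-- Odd maximum degree, with a matching `M` covering the vertices of maximum degree. -/
theorem line_odd {U : Type} [Finite U] (H M : SimpleGraph U) (k : ℕ) (hMH : M ≤ H)
    (hM : IsM M) (hdeg : ∀ v, (H.neighborSet v).ncard ≤ 2 * k + 1)
    (hcov : ∀ v, (H.neighborSet v).ncard = 2 * k + 1 → ∃ w, M.Adj v w) :
    Cov H.lineGraph (2 * k + 1) := by
  classical
  have hdeg' : ∀ v, ((H \ M).neighborSet v).ncard ≤ 2 * k := by
    intro v
    by_cases hv : (H.neighborSet v).ncard = 2 * k + 1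
    · obtain ⟨w, hw⟩ := hcov v hv
      have hsub : (H \ M).neighborSet v ⊆ H.neighborSet v \ {w} := by
        intro x hx
        rw [mem_neighborSet, sdiff_adj] at hx
        refine ⟨hx.1, ?_⟩
        rintro rfl
        exact hx.2 hw
      have h1 := Set.ncard_le_ncard hsub (Set.toFinite _)
      rw [Set.ncard_sdiff_singleton_of_mem (show w ∈ H.neighborSet v from hMH hw)] at h1
      omega
    · have hsub : (H \ M).neighborSet v ⊆ H.neighborSet v := by
        intro x hx
        rw [mem_neighborSet, sdiff_adj] at hx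
        exact hx.1
      have h1 := Set.ncard_le_ncard hsub (Set.toFinite _)
      have h2 := hdeg v
      omega
  obtain ⟨cl0, h1, h2⟩ := exists_classes (H \ M) k hdeg'
  let cl : Sym2 U → ℕ := fun e => if e ∈ M.edgeSet then k else cl0 e
  have hclM : ∀ x y, M.Adj x y → cl s(x, y) = k := by
    intro x y h
    simp only [cl]
    rw [if_pos (by rw [mem_edgeSet]; exact h)]
  have hclN : ∀ x y, H.Adj x y → ¬ M.Adj x y → cl s(x, y) = cl0 s(x, y) ∧ cl s(x, y) < k := by
    intro x y h h'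
    have h3 : cl s(x, y) = cl0 s(x, y) := by
      simp only [cl]
      rw [if_neg (by rw [mem_edgeSet]; exact h')]
    refine ⟨h3, ?_⟩
    rw [h3]
    exact h1 _ (by rw [mem_edgeSet, sdiff_adj]; exact ⟨h, h'⟩)
  have hle : ∀ e : H.edgeSet, cl e ≤ k := by
    rintro ⟨⟨x, y⟩, he⟩
    by_cases hxy : M.Adj x y
    · exact (hclM x y hxy).le
    · exact (hclN x y he hxy).2.le
  have hj : ∀ x j, j < k → {y | ∃ _ : H.Adj x y, cl s(x, y) = j}.ncard ≤ 2 := by
    intro x j hjk
    refine (Set.ncard_le_ncard ?_ (Set.toFinite _)).trans (h2 x j)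
    rintro y ⟨hy, hy'⟩
    by_cases hxy : M.Adj x y
    · have := hclM x y hxy
      omega
    · have h3 := hclN x y hy hxy
      exact ⟨by rw [sdiff_adj]; exact ⟨hy, hxy⟩, by rw [← h3.1]; exact hy'⟩
  have hk : ∀ x, {y | ∃ _ : H.Adj x y, cl s(x, y) = k}.ncard ≤ 1 := by
    intro x
    apply ncard_le_one_of
    have hMk : ∀ y, (∃ _ : H.Adj x y, cl s(x, y) = k) → M.Adj x y := by
      rintro y ⟨hy, hy'⟩
      by_contra hxy
      have h3 := hclN x y hy hxy
      omega
    intro a ha b hb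
    exact hM x a b (hMk a ha) (hMk b hb)
  refine cov_odd H.lineGraph k (fun e => cl e) hle ?_ ?_ ?_ ?_ ?_
  · intro e j _ hjk _
    exact star_count H (fun e => cl e) j 2 (fun x => hj x j hjk) e
  · intro e he
    exact star_count_own H (fun e => cl e) 1 e (fun x => hj x (cl e) he)
  · intro e e' hee he he'
    have h3 := star_count_own H (fun e => cl e) 0 e (by
      intro x
      have h4 := hk x
      change {y | ∃ _ : H.Adj x y, cl s(x, y) = cl e}.ncard ≤ 0 + 1
      have he2 : cl e = k := he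
      rw [he2]
      exact h4)
    have h5 : e' ∈ {e' | H.lineGraph.Adj e e' ∧ cl e' = cl e} := ⟨hee, by
      have he2 : cl e = k := he
      have he3 : cl e' = k := he'
      rw [he2, he3]⟩
    have h6 : ({e' | H.lineGraph.Adj e e' ∧ cl e' = cl e} : Set H.edgeSet).ncard = 0 := by
      have h7 : ({e' | H.lineGraph.Adj e e' ∧ cl e' = cl e} : Set H.edgeSet).ncard ≤ 2 * 0 := h3
      omega
    rw [Set.ncard_eq_zero (Set.toFinite _)] at h6
    rw [h6] at h5
    exact h5
  · intro e j _ hjk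
    exact star_count H (fun e => cl e) j 2 (fun x => hj x j hjk) e
  · intro e _
    exact star_count H (fun e => cl e) k 1 (fun x => hk x) e

/-- The degrees of the line graph of a regular graph. -/
theorem line_degree {U : Type} [Finite U] (H : SimpleGraph U) (d : ℕ)
    (hdeg : ∀ v, (H.neighborSet v).ncard = d) (e : H.edgeSet) :
    (H.lineGraph.neighborSet e).ncard = 2 * (d - 1) := by
  classical
  obtain ⟨⟨x, y⟩, hxy⟩ := e
  have hxy' : H.Adj x y := hxy
  have hne : x ≠ y := hxy'.ne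
  have h1 : H.lineGraph.neighborSet ⟨s(x, y), hxy⟩ =
      (fun e' : H.edgeSet => (e' : Sym2 U)) ⁻¹'
        ((fun z => s(x, z)) '' (H.neighborSet x \ {y}) ∪
          (fun z => s(y, z)) '' (H.neighborSet y \ {x})) := by
    ext e'
    rw [mem_neighborSet, lineGraph_adj_iff_exists, Set.mem_preimage]
    constructor
    · rintro ⟨hne', z, hz, hz'⟩
      have hz2 : z ∈ s(x, y) := hz
      rw [Sym2.mem_iff] at hz2
      obtain ⟨w, hw⟩ := hz'
      have hadj : H.Adj z w := by
        have := e'.2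
        rw [hw] at this
        exact this
      rcases hz2 with rfl | rfl
      · left
        refine ⟨w, ⟨hadj, ?_⟩, hw.symm⟩
        intro h
        rw [Set.mem_singleton_iff] at h
        subst h
        exact hne' (Subtype.ext hw.symm)
      · right
        refine ⟨w, ⟨hadj, ?_⟩, hw.symm⟩
        intro h
        rw [Set.mem_singleton_iff] at h
        subst h
        exact hne' (Subtype.ext (by rw [hw]; exact Sym2.eq_swap))
    · rintro (⟨w, ⟨hw, hw'⟩, he⟩ | ⟨w, ⟨hw, hw'⟩, he⟩)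
      · refine ⟨?_, x, ?_, ?_⟩
        · intro h
          have h2 : s(x, y) = s(x, w) :=
            (congrArg Subtype.val h).trans he.symm
          rw [Sym2.eq_iff] at h2
          rcases h2 with ⟨_, h2⟩ | ⟨h2, h3⟩
          · exact hw' h2.symm
          · exact hne h3.symm
        · exact Sym2.mem_mk_left x y
        · rw [← he]; exact Sym2.mem_mk_left x w
      · refine ⟨?_, y, ?_, ?_⟩
        · intro h
          have h2 : s(x, y) = s(y, w) :=
            (congrArg Subtype.val h).trans he.symm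
          rw [Sym2.eq_iff] at h2
          rcases h2 with ⟨h2, _⟩ | ⟨h2, h3⟩
          · exact hne h2
          · exact hw' h2.symm
        · exact Sym2.mem_mk_right x y
        · rw [← he]; exact Sym2.mem_mk_left y w
  rw [h1, Set.ncard_preimage_of_injective_subset_range Subtype.val_injective]
  · rw [Set.ncard_union_eq]
    · rw [Set.ncard_image_of_injective, Set.ncard_image_of_injective,
        Set.ncard_sdiff_singleton_of_mem (show y ∈ H.neighborSet x from hxy'),
        Set.ncard_sdiff_singleton_of_mem (show x ∈ H.neighborSet y from hxy'.symm), hdeg, hdeg]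
      · omega
      · intro a b hab
        have hab' : s(y, a) = s(y, b) := hab
        exact Sym2.congr_right.1 hab'
      · intro a b hab
        have hab' : s(x, a) = s(x, b) := hab
        exact Sym2.congr_right.1 hab'
    · rw [Set.disjoint_left]
      rintro _ ⟨a, ⟨ha, ha'⟩, rfl⟩ ⟨b, ⟨hb, hb'⟩, h⟩
      have h2 : s(y, b) = s(x, a) := h
      rw [Sym2.eq_iff] at h2
      rcases h2 with ⟨h2, _⟩ | ⟨h2, h3⟩
      · exact hne h2.symm
      · exact ha' h2.symm
  · rintro _ (⟨a, ⟨ha, _⟩, rfl⟩ | ⟨a, ⟨ha, _⟩, rfl⟩)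
    · exact ⟨⟨s(x, a), ha⟩, rfl⟩
    · exact ⟨⟨s(y, a), ha⟩, rfl⟩

end Pool.Agent.TH702.LLG
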